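import Mathlib
import Pool.Agent.Lib.helper15.Rat4

open Filter Topology

namespace Pool.Agent.Results.MP_46f8bc_an.NoSemigroup

/-- the strictly positive rationals -/
abbrev Qpos := {q : ℚ // 0 < q}

/-- f belongs to l^1(Q^+, e^{-t^2}) -/
def Mem (f : Qpos → ℂ) : Prop := Summable fun q => ‖f q‖ * Real.exp (-((q.1 : ℚ) : ℝ) ^ 2)

/-- the norm of l^1(Q^+, e^{-t^2}) -/
noncomputable def wnorm (f : Qpos → ℂ) : ℝ := ∑' q, ‖f q‖ * Real.exp (-((q.1 : ℚ) : ℝ) ^ 2)

/-- the convolution product -/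
noncomputable def conv (f g : Qpos → ℂ) (r : Qpos) : ℂ :=
  ∑' p : {p : Qpos × Qpos // p.1 + p.2 = r}, f p.1.1 * g p.1.2

open Pool.Agent.Lib.helper15.Rat

lemma wt {q : Qpos} (hq : q.1 < 1) (c : ℂ) :
    ‖c‖ ≤ Real.exp 1 * (‖c‖ * Real.exp (-((q.1 : ℚ) : ℝ) ^ 2)) := by
  have h1 : ((q.1 : ℚ) : ℝ) < 1 := by exact_mod_cast hq
  have h0 : (0 : ℝ) < (q.1 : ℚ) := by exact_mod_cast q.2
  rw [mul_left_comm, ← Real.exp_add]
  exact le_mul_of_one_le_right (norm_nonneg _) (Real.one_le_exp (by nlinarith))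

lemma small (a : ℝ → Qpos → ℂ) (hm : ∀ t > 0, Mem (a t))
    (hs : ∀ s > 0, ∀ t > 0, a (s + t) = conv (a s) (a t))
    (hc : ∀ t > 0, Tendsto (fun s => wnorm (a s - a t)) (𝓝 t) (𝓝 0)) {q0 : Qpos}
    (h0 : q0.1 ≤ 1 / 2400) : a 3 q0 = 0 := by
  classical
  let u : ℝ → Qpos → ℂ := fun t q => if q.1 < 1 then a t q else 0
  have h1 : ∀ t > 0, Summable fun q => ‖u t q‖ := fun t ht =>
    ((hm t ht).mul_left (Real.exp 1)).of_nonneg_of_le (fun _ => norm_nonneg _) fun q => by
      simp only [u]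
      split_ifs with h
      · exact wt h _
      · rw [norm_zero]; positivity
  have := main3 u h1 (fun t q hq => if_neg (not_lt.2 hq)) (fun s hs' t ht r hr => ?_)
    (fun t ht => ?_) h0
  · simpa [u, show q0.1 < 1 by linarith] using this
  · simp only [u, if_pos hr, hs s hs' t ht, conv]
    refine tsum_congr fun p => ?_
    have h2 : p.1.1.1 + p.1.2.1 = r.1 := congrArg Subtype.val p.2
    rw [if_pos (by linarith [p.1.2.2]), if_pos (by linarith [p.1.1.2])]
  · have h2 := (hc t ht).const_mul (Real.exp 1)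
    rw [mul_zero] at h2
    refine squeeze_zero' (Eventually.of_forall fun s => tsum_nonneg fun _ => norm_nonneg _) ?_ h2
    filter_upwards [lt_mem_nhds ht] with s hs'
    have h3 : Mem (a s - a t) := ((hm s hs').add (hm t ht)).of_nonneg_of_le
      (fun _ => by positivity) fun q => by
        rw [← add_mul]
        exact mul_le_mul_of_nonneg_right (norm_sub_le _ _) (Real.exp_pos _).le
    rw [wnorm, ← tsum_mul_left]
    refine Summable.tsum_le_tsum (fun q => ?_) (((h1 s hs').add (h1 t ht)).of_nonneg_of_le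
      (fun _ => norm_nonneg _) fun q => norm_sub_le _ _) (h3.mul_left _)
    simp only [u]
    split_ifs with h
    · exact wt h _
    · rw [sub_zero, norm_zero]; positivity

theorem result (a : ℝ → Qpos → ℂ) (hm : ∀ t > 0, Mem (a t))
    (hs : ∀ s > 0, ∀ t > 0, a (s + t) = conv (a s) (a t))
    (hc : ∀ t > 0, Tendsto (fun s => wnorm (a s - a t)) (𝓝 t) (𝓝 0)) :
    ∀ t > 0, a t = 0 := by
  have h1 : ∀ t > 0, ∀ q : Qpos, q.1 ≤ 1 / 2400 → a t q = 0 := fun t ht q hq => by
    have := small (fun s => a (t / 3 * s)) (fun s hs' => hm _ (by positivity))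
      (fun s hs' r hr => by rw [mul_add]; exact hs _ (by positivity) _ (by positivity))
      (fun s hs' => (hc _ (by positivity)).comp (continuous_const_mul (t / 3)).continuousAt) hq
    simpa using this
  have h2 : ∀ n : ℕ, ∀ t > 0, ∀ q : Qpos, q.1 ≤ (n + 1) / 2400 → a t q = 0 := by
    intro n
    induction n with
    | zero => simpa using h1
    | succ n ih =>
      intro t ht q hq
      rw [← add_halves t, hs _ (half_pos ht) _ (half_pos ht), conv]
      refine (tsum_congr fun p => ?_).trans tsum_zero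
      have h2 : p.1.1.1 + p.1.2.1 = q.1 := congrArg Subtype.val p.2
      by_cases h : p.1.2.1 ≤ 1 / 2400
      · rw [h1 _ (half_pos ht) _ h, mul_zero]
      · rw [ih _ (half_pos ht) _ (by push_cast at hq; linarith), zero_mul]
  intro t ht
  funext q
  obtain ⟨n, hn⟩ := exists_nat_ge (q.1 * 2400)
  exact h2 n t ht q (by linarith)

end Pool.Agent.Results.MP_46f8bc_an.NoSemigroup
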